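import Pool.Agent.LPM.Z

set_option autoImplicit false

/-! Finite simple automorphic loops are groups. -/

namespace Pool.Agent.Results.MP_951c8d_al.SimpleIsGroup

/-- The loop `(Q, mul)` is simple: every homomorphism from it onto a loop is injective or constant. -/
def Simple (Q : Type) (mul : Q → Q → Q) : Prop :=
  ∀ (P : Type) (m : P → P → P) (u : P) (f : Q → P),
    (∀ x, m u x = x) → (∀ x, m x u = x) → (∀ a b, ∃! x, m a x = b) → (∀ a b, ∃! y, m y a = b) →
    Function.Surjective f → (∀ x y, f (mul x y) = m (f x) (f y)) →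
    Function.Injective f ∨ ∀ x y, f x = f y

/-- Every finite simple automorphic loop (hypotheses on the loop exactly as in `S02353`) is associative, i.e. a
group. -/
theorem result :
    ∀ (Q : Type) [Finite Q] (mul : Q → Q → Q) (e : Q),
      (∀ x, mul e x = x) →
      (∀ x, mul x e = x) →
      (∀ a b, ∃! x, mul a x = b) →
      (∀ a b, ∃! y, mul y a = b) →
      (∀ (x y : Q) (f : Q → Q), (∀ z, mul (mul y x) (f z) = mul y (mul x z)) →
          ∀ u v, f (mul u v) = mul (f u) (f v)) →
      (∀ (x y : Q) (f : Q → Q), (∀ z, mul (f z) (mul x y) = mul (mul z x) y) →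
          ∀ u v, f (mul u v) = mul (f u) (f v)) →
      (∀ (x : Q) (f : Q → Q), (∀ z, mul x (f z) = mul z x) →
          ∀ u v, f (mul u v) = mul (f u) (f v)) →
      Simple Q mul → ∀ x y z, mul (mul x y) z = mul x (mul y z) := by
  intro Q _ mul e h1 h2 h3 h4 h5 h6 h7 hs
  have h : CAL.IsLoop mul e := ⟨h1, h2, h3, h4⟩
  have ha : CAL.IsAut mul := ⟨h5, h6, h7⟩
  refine LPM.simple_assoc h ha fun S hS => ?_
  obtain ⟨P, m, u, f, hl, -, hf, hsur, hiff⟩ := LPM.quot_loop h ha hS
  rcases hs P m u f hl.one_mul hl.mul_one hl.ldiv hl.rdiv hsur hf with h8 | h8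
  · left
    intro x hx
    have h9 : f e = f x := (hiff e x).2 (by rwa [CAL.ld_e])
    exact (h8 h9).symm
  · right
    intro x
    have h9 := (hiff e x).1 (h8 e x)
    rwa [CAL.ld_e] at h9

end Pool.Agent.Results.MP_951c8d_al.SimpleIsGroup
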